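import Pool.Agent.helper74.VD.SpecI
import Pool.Agent.helper40.VD.EHD
import Pool.Agent.helper25.VD.EHG
import Pool.Agent.helper95.VD.EHC

/-!
# Project VD (MP_07c750_an), row `vd:AGRD`: Green's formula on `M` and on the universal covering
-/

set_option autoImplicit false

open scoped ContDiff Topology InnerProductSpace ComplexConjugate ENNReal
open MeasureTheory Filter Set

namespace Pool.Agent.VD

noncomputable section

/-- the Laplacian is local -/
theorem AGRD_loc {d : ℕ} (G : V d → V d →L[ℝ] V d) {φ φ' : V d → ℂ} {x : V d} (h : φ =ᶠ[𝓝 x] φ') :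
    lap G φ x = lap G φ' x := by
  unfold lap
  congr 1
  refine Finset.sum_congr rfl fun i _ => ?_
  have h1 : (fun y => ((dens G y : ℝ) : ℂ) * fderiv ℝ φ y ((G y).inverse (EuclideanSpace.single i 1))) =ᶠ[𝓝 x]
      fun y => ((dens G y : ℝ) : ℂ) * fderiv ℝ φ' y ((G y).inverse (EuclideanSpace.single i 1)) := by
    filter_upwards [h.fderiv (𝕜 := ℝ)] with y hy
    rw [hy]
  rw [h1.fderiv_eq]

theorem AGRD_zero {d : ℕ} (G : V d → V d →L[ℝ] V d) (x : V d) : lap G (fun _ => (0 : ℂ)) x = 0 := by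
  unfold lap
  have : ∀ i : Fin d, fderiv ℝ (fun y : V d => ((dens G y : ℝ) : ℂ) * fderiv ℝ (fun _ : V d => (0 : ℂ)) y ((G y).inverse (EuclideanSpace.single i 1))) x
      (EuclideanSpace.single i 1) = 0 := by
    intro i
    have h1 : (fun y : V d => ((dens G y : ℝ) : ℂ) * fderiv ℝ (fun _ : V d => (0 : ℂ)) y ((G y).inverse (EuclideanSpace.single i 1))) = fun _ => 0 := by
      funext y
      rw [fderiv_const_apply]
      simp
    rw [h1, fderiv_const_apply]
    rfl
  rw [Finset.sum_eq_zero fun i _ => this i, mul_zero]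

theorem AGRD_sum {d : ℕ} {G : V d → V d →L[ℝ] V d} (hG : IsMetric G) {ι : Type} (S : Finset ι) (f : ι → V d → ℂ)
    (hf : ∀ i ∈ S, ContDiff ℝ 2 (f i)) (x : V d) : lap G (fun y => ∑ i ∈ S, f i y) x = ∑ i ∈ S, lap G (f i) x := by
  classical
  induction S using Finset.induction_on with
  | empty =>
    simp only [Finset.sum_empty]
    exact AGRD_zero G x
  | insert a S ha ih =>
    have h1 : ContDiff ℝ 2 (f a) := hf a (Finset.mem_insert_self _ _)
    have h2 : ∀ i ∈ S, ContDiff ℝ 2 (f i) := fun i hi => hf i (Finset.mem_insert_of_mem hi)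
    rw [Finset.sum_insert ha, ← ih h2, ← (EHC_proof EHD_proof d G hG).2 (f a) (fun y => ∑ i ∈ S, f i y) h1 (ContDiff.sum h2) x]
    congr 1
    funext y
    rw [Finset.sum_insert ha]

/-- integrals over the covering are integrals over the fundamental domain of finite sums -/
theorem AGRD_fold {d : ℕ} {Γ : Type} [Group Γ] [MulAction Γ (V d)] [Countable Γ] {μ : Measure (V d)} {F : Set (V d)} (hF : FD Γ F)
    (hsm : ∀ γ : Γ, Continuous fun x : V d => γ • x) (hmp : ∀ γ : Γ, MeasurePreserving (fun x : V d => γ • x) μ μ)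
    (f : V d → ℂ) (hf : Integrable f μ) (S : Finset Γ) (hS : ∀ γ : Γ, ∀ x ∈ F, f (γ⁻¹ • x) ≠ 0 → γ ∈ S) :
    ∫ x, f x ∂μ = ∫ x in F, ∑ γ ∈ S, f (γ⁻¹ • x) ∂μ := by
  have i1 : MeasurableConstSMul Γ (V d) := ⟨fun γ => (hsm γ).measurable⟩
  have i2 : SMulInvariantMeasure Γ (V d) μ := ⟨fun γ s hs => (hmp γ).measure_preimage hs.nullMeasurableSet⟩
  have hfd : IsFundamentalDomain Γ F μ := by
    refine IsFundamentalDomain.mk' hF.meas.nullMeasurableSet fun x => ?_
    exact hF.uniq x
  rw [hfd.integral_eq_tsum' f hf, tsum_eq_sum (s := S), integral_finset_sum]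
  · intro γ _
    exact ((hmp γ⁻¹).integrable_comp_of_integrable hf).integrableOn
  · intro γ hγ
    refine setIntegral_eq_zero_of_forall_eq_zero fun x hx => ?_
    by_contra hne
    exact hγ (hS γ x hx hne)

theorem AGRD_proof (hAMVI : AMVI_stmt) (hAPUE : APUE_stmt) : AGRD_stmt := by
  intro d Γ _ _ K k B G hfd hcls Λ F T hDm φ ψ hφ hψ hφ2 hψ2
  obtain ⟨hcount, hdens, hdpos, -, hfin, hmp, -, hint, hlinv⟩ := hAMVI d Γ K k B G hfd hcls
  have hG := hcls.met
  have hEHC := (EHC_proof EHD_proof d G hG).1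
  have hG2 := EHG_proof EHD_proof d G
  have iK : IsFiniteMeasureOnCompacts (mv G) := ⟨fun {S} hS => hfin S hS⟩
  -- the conjugate function
  have hg2 : ContDiff ℝ 2 (fun z => conj (ψ z)) := Complex.conjCLE.contDiff.comp hψ2
  have hlg : ∀ x, lap G (fun z => conj (ψ z)) x = conj (lap G ψ x) := (hEHC ψ hψ2).2.1
  have hgc := (hEHC _ hg2).1
  have hφc := (hEHC φ hφ2).1
  -- Green's formula for `mv`
  have green : ∀ u v : V d → ℂ, ContDiff ℝ 2 u → ContDiff ℝ 2 v → HasCompactSupport v →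
      ∫ z, lap G u z * v z ∂mv G = ∫ z, u z * lap G v z ∂mv G := by
    intro u v hu hv hc
    rw [hint, hint]
    have h1 := hG2 u v hG hu hv hc
    have e1 : ∀ z, dens G z • (lap G u z * v z) = lap G u z * v z * ((dens G z : ℝ) : ℂ) := by
      intro z
      rw [Complex.real_smul, mul_comm]
    have e2 : ∀ z, dens G z • (u z * lap G v z) = u z * lap G v z * ((dens G z : ℝ) : ℂ) := by
      intro z
      rw [Complex.real_smul, mul_comm]
    simp_rw [e1, e2]
    exact h1
  have goal2 : ∀ z, φ z * conj (lap G ψ z) = φ z * lap G (fun z => conj (ψ z)) z := fun z => by rw [hlg]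
  simp_rw [goal2]
  rcases hDm with ⟨rfl, hF, rfl⟩ | ⟨rfl, rfl, rfl⟩
  · -- the closed manifold
    obtain ⟨r0, χ, hχ, -⟩ := hAPUE d Γ K hfd
    obtain ⟨b, hb⟩ := hF.bdd
    set g : V d → ℂ := fun z => conj (ψ z) with hgdef
    have hginv : ∀ (γ : Γ) (z : V d), g (γ • z) = g z := fun γ z => by
      show conj (ψ (γ • z)) = conj (ψ z)
      rw [hψ.inv γ (Subgroup.mem_top γ)]
    have hφinv : ∀ (γ : Γ) (z : V d), φ (γ • z) = φ z := fun γ z => hφ.inv γ (Subgroup.mem_top γ) z
    have hlginv : ∀ (γ : Γ) (z : V d), lap G g (γ • z) = lap G g z := by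
      intro γ z
      rw [← hlinv g γ z hg2]
      congr 1
      funext y
      exact hginv γ y
    have hlφinv : ∀ (γ : Γ) (z : V d), lap G φ (γ • z) = lap G φ z := by
      intro γ z
      rw [← hlinv φ γ z hφ2]
      congr 1
      funext y
      exact hφinv γ y
    set η : V d → ℂ := fun z => ((χ z ^ 2 : ℝ) : ℂ) with hηdef
    have hη2 : ContDiff ℝ 2 η := Complex.ofRealCLM.contDiff.comp ((hχ.smooth.pow 2).of_le (by norm_cast))
    have hη0 : ∀ z, η z ≠ 0 → ‖z‖ ≤ r0 := by
      intro z hz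
      have : χ z ≠ 0 := by
        intro h0
        apply hz
        show ((χ z ^ 2 : ℝ) : ℂ) = 0
        rw [h0]
        norm_num
      linarith [hχ.supp z this]
    have hηsupp : ∀ z, r0 - 1 < ‖z‖ → η =ᶠ[𝓝 z] fun _ => 0 := by
      intro z hz
      have hopen : IsOpen {y : V d | r0 - 1 < ‖y‖} := isOpen_lt continuous_const continuous_norm
      filter_upwards [hopen.mem_nhds hz] with y hy
      by_contra hne
      have : χ y ≠ 0 := by
        intro h0
        apply hne
        show ((χ y ^ 2 : ℝ) : ℂ) = 0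
        rw [h0]
        norm_num
      have h2 := hχ.supp y this
      have h3 : r0 - 1 < ‖y‖ := hy
      linarith
    -- the finite set
    have hfinS : {γ : Γ | ∃ x ∈ Metric.closedBall (0 : V d) (max (b + 1) r0), γ • x ∈ Metric.closedBall (0 : V d) (max (b + 1) r0)}.Finite :=
      hfd.proper _ (isCompact_closedBall _ _)
    have hfinS' := hfinS.image (fun γ : Γ => γ⁻¹)
    set S : Finset Γ := hfinS'.toFinset with hSdef
    have hS : ∀ (γ : Γ) (y : V d), ‖y‖ ≤ b + 1 → ‖γ⁻¹ • y‖ ≤ r0 → γ ∈ S := by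
      intro γ y h1 h2
      rw [hSdef, Set.Finite.mem_toFinset]
      refine ⟨γ⁻¹, ⟨y, ?_, ?_⟩, inv_inv γ⟩
      · rw [mem_closedBall_zero_iff]
        exact h1.trans (le_max_left _ _)
      · rw [mem_closedBall_zero_iff]
        exact h2.trans (le_max_right _ _)
    have hsum : ∀ y : V d, ‖y‖ ≤ b + 1 → ∑ γ ∈ S, η (γ⁻¹ • y) = 1 := by
      intro y hy
      have h1 := hχ.sum y
      have h2 : ∑ᶠ γ : Γ, χ (γ⁻¹ • y) ^ 2 = ∑ γ ∈ S, χ (γ⁻¹ • y) ^ 2 := by
        refine finsum_eq_sum_of_support_subset _ fun γ hγ => ?_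
        rw [Function.mem_support] at hγ
        have h3 : χ (γ⁻¹ • y) ≠ 0 := fun h0 => hγ (by rw [h0]; norm_num)
        have h4 := hχ.supp _ h3
        exact hS γ y hy (by linarith)
      rw [h2] at h1
      show ∑ γ ∈ S, (((χ (γ⁻¹ • y) ^ 2 : ℝ)) : ℂ) = 1
      rw [← Complex.ofReal_sum, h1, Complex.ofReal_one]
    -- folding of continuous functions supported in the ball
    have hcont : ∀ γ : Γ, Continuous fun x : V d => γ • x := fun γ => (hfd.smooth γ).continuous
    have fold : ∀ f : V d → ℂ, Continuous f → (∀ z, f z ≠ 0 → ‖z‖ ≤ r0) →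
        Integrable f (mv G) ∧ ∫ x, f x ∂mv G = ∫ x in F, ∑ γ ∈ S, f (γ⁻¹ • x) ∂mv G := by
      intro f hf hfs
      have hcs : HasCompactSupport f := by
        refine HasCompactSupport.intro (isCompact_closedBall (0 : V d) r0) fun x hx => ?_
        by_contra hne
        exact hx (mem_closedBall_zero_iff.2 (hfs x hne))
      have hfi : Integrable f (mv G) := hf.integrable_of_hasCompactSupport hcs
      refine ⟨hfi, AGRD_fold hF hcont hmp f hfi S fun γ x hx hne => ?_⟩
      exact hS γ x (by linarith [hb x hx]) (hfs _ hne)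
    have unfold_inv : ∀ h : V d → ℂ, Continuous h → (∀ (γ : Γ) (z : V d), h (γ • z) = h z) →
        Integrable (fun z => η z * h z) (mv G) ∧ ∫ z in F, h z ∂mv G = ∫ z, η z * h z ∂mv G := by
      intro h hh hinv
      obtain ⟨h1, h2⟩ := fold (fun z => η z * h z) (hη2.continuous.mul hh) fun z hz => hη0 z (left_ne_zero_of_mul hz)
      refine ⟨h1, ?_⟩
      rw [h2]
      refine setIntegral_congr_fun hF.meas fun x hx => ?_
      have e1 : ∀ γ ∈ S, η (γ⁻¹ • x) * h (γ⁻¹ • x) = η (γ⁻¹ • x) * h x := fun γ _ => by rw [hinv]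
      show h x = ∑ γ ∈ S, η (γ⁻¹ • x) * h (γ⁻¹ • x)
      rw [Finset.sum_congr rfl e1, ← Finset.sum_mul, hsum x (by linarith [hb x hx]), one_mul]
    -- the commutator
    set P : V d → ℂ := fun z => lap G (fun y => η y * g y) z - η z * lap G g z with hPdef
    have hηg : ContDiff ℝ 2 fun y => η y * g y := hη2.mul hg2
    have hPc : Continuous P := ((hEHC _ hηg).1).sub (hη2.continuous.mul hgc)
    have hP0 : ∀ z, P z ≠ 0 → ‖z‖ ≤ r0 := by
      intro z hz
      by_contra hc
      push Not at hc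
      apply hz
      have h1 := hηsupp z (by linarith)
      have h2 : (fun y => η y * g y) =ᶠ[𝓝 z] fun _ => 0 := by
        filter_upwards [h1] with y hy
        rw [hy, zero_mul]
      show lap G (fun y => η y * g y) z - η z * lap G g z = 0
      rw [AGRD_loc G h2, AGRD_zero, h1.self_of_nhds, zero_mul, sub_zero]
    have hPsum : ∀ x ∈ F, ∑ γ ∈ S, P (γ⁻¹ • x) = 0 := by
      intro x hx
      have e1 : ∀ γ ∈ S, P (γ⁻¹ • x) = lap G (fun y => η (γ⁻¹ • y) * g (γ⁻¹ • y)) x - η (γ⁻¹ • x) * lap G g x := by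
        intro γ _
        show lap G (fun y => η y * g y) (γ⁻¹ • x) - η (γ⁻¹ • x) * lap G g (γ⁻¹ • x) = _
        rw [hlginv, ← hlinv (fun y => η y * g y) γ⁻¹ x hηg]
      rw [Finset.sum_congr rfl e1, Finset.sum_sub_distrib, ← Finset.sum_mul, hsum x (by linarith [hb x hx]), one_mul,
        ← AGRD_sum hG S (fun γ y => η (γ⁻¹ • y) * g (γ⁻¹ • y))]
      · have h1 : (fun y => ∑ γ ∈ S, η (γ⁻¹ • y) * g (γ⁻¹ • y)) =ᶠ[𝓝 x] g := by
          have hopen : IsOpen {y : V d | ‖y‖ < b + 1} := isOpen_lt continuous_norm continuous_const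
          have hx' : x ∈ {y : V d | ‖y‖ < b + 1} := by
            show ‖x‖ < b + 1
            linarith [hb x hx]
          filter_upwards [hopen.mem_nhds hx'] with y hy
          have e2 : ∀ γ ∈ S, η (γ⁻¹ • y) * g (γ⁻¹ • y) = η (γ⁻¹ • y) * g y := fun γ _ => by rw [hginv]
          rw [Finset.sum_congr rfl e2, ← Finset.sum_mul, hsum y (le_of_lt hy), one_mul]
        rw [AGRD_loc G h1, sub_self]
      · intro γ _
        exact hηg.comp ((hfd.smooth γ⁻¹).of_le (by norm_cast))
    have hPint := fold (fun z => φ z * P z) (hφ2.continuous.mul hPc) fun z hz => hP0 z (right_ne_zero_of_mul hz)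
    have hPzero : ∫ z, φ z * P z ∂mv G = 0 := by
      rw [hPint.2]
      refine setIntegral_eq_zero_of_forall_eq_zero fun x hx => ?_
      have e1 : ∀ γ ∈ S, φ (γ⁻¹ • x) * P (γ⁻¹ • x) = φ x * P (γ⁻¹ • x) := fun γ _ => by rw [hφinv]
      rw [Finset.sum_congr rfl e1, ← Finset.mul_sum, hPsum x hx, mul_zero]
    -- the end
    have hηgs : HasCompactSupport fun y => η y * g y := by
      refine HasCompactSupport.intro (isCompact_closedBall (0 : V d) r0) fun x hx => ?_
      by_contra hne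
      exact hx (mem_closedBall_zero_iff.2 (hη0 x (left_ne_zero_of_mul hne)))
    obtain ⟨-, a2⟩ := unfold_inv (fun z => lap G φ z * g z) (hφc.mul hg2.continuous)
      fun γ z => by rw [hlφinv, hginv]
    obtain ⟨b1, b2⟩ := unfold_inv (fun z => φ z * lap G g z) (hφ2.continuous.mul hgc)
      fun γ z => by rw [hlginv, hφinv]
    show ∫ z in F, lap G φ z * g z ∂mv G = ∫ z in F, φ z * lap G g z ∂mv G
    rw [a2, b2]
    have c1 : ∀ z, η z * (lap G φ z * g z) = lap G φ z * (η z * g z) := fun z => by ring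
    have c2 : ∀ z, φ z * lap G (fun y => η y * g y) z = φ z * P z + η z * (φ z * lap G g z) := by
      intro z
      show _ = φ z * (lap G (fun y => η y * g y) z - η z * lap G g z) + _
      ring
    simp_rw [c1]
    rw [green φ (fun y => η y * g y) hφ2 hηg hηgs]
    simp_rw [c2]
    rw [integral_add hPint.1 b1, hPzero, zero_add]
  · -- the universal covering
    obtain ⟨b, hb⟩ := hψ.supp
    rw [setIntegral_univ, setIntegral_univ]
    refine green φ (fun z => conj (ψ z)) hφ2 hg2 ?_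
    refine HasCompactSupport.intro (isCompact_closedBall (0 : V d) b) fun x hx => ?_
    by_contra hne
    have h1 : ψ x ≠ 0 := fun h0 => hne (by rw [h0, map_zero])
    exact hx (mem_closedBall_zero_iff.2 (hb x (mem_univ x) h1))

end

end Pool.Agent.VD
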