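import Pool.Agent.helper74.VD.SpecA3

/-!
# Project VD (MP_07c750_an), row `vd:APKC`: packets under changes of charts
-/

set_option autoImplicit false

open scoped ContDiff Topology InnerProductSpace ComplexConjugate ENNReal
open MeasureTheory Filter Set

namespace Pool.Agent.VD

noncomputable section

/-- the derivatives of `exp (i x)` have norm one -/
theorem APKC_exp (j : ℕ) (x : ℝ) : ‖iteratedFDeriv ℝ j (fun x : ℝ => Complex.exp ((x : ℂ) * Complex.I)) x‖ = 1 := by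
  rw [norm_iteratedFDeriv_eq_norm_iteratedDeriv]
  have h : ∀ j : ℕ, iteratedDeriv j (fun x : ℝ => Complex.exp ((x : ℂ) * Complex.I)) =
      fun x : ℝ => Complex.I ^ j * Complex.exp ((x : ℂ) * Complex.I) := by
    intro j
    induction j with
    | zero => simp
    | succ j ih =>
      rw [iteratedDeriv_succ, ih]
      funext x
      have h1 : HasDerivAt (fun x : ℝ => (x : ℂ) * Complex.I) Complex.I x := by
        have := (Complex.ofRealCLM.hasDerivAt (x := x)).mul_const Complex.I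
        simpa using this
      have h2 := (h1.cexp).const_mul (Complex.I ^ j)
      rw [h2.deriv]
      ring
  rw [h j]
  simp [Complex.norm_exp]

theorem APKC_expsm : ContDiff ℝ ∞ (fun x : ℝ => Complex.exp ((x : ℂ) * Complex.I)) := by
  exact (Complex.ofRealCLM.contDiff.mul contDiff_const).cexp

/-- the momentum of the changed chart -/
theorem APKC_inner {d : ℕ} {Γ : Type} [Group Γ] [MulAction Γ (V d)] (hs : ∀ γ : Γ, ContDiff ℝ ∞ fun x : V d => γ • x) (κ : Γ) (x ξ v : V d) :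
    ⟪(ContinuousLinearMap.adjoint (fderiv ℝ (fun y : V d => κ • y) x)).inverse ξ, v⟫_ℝ = ⟪ξ, fderiv ℝ (fun y : V d => κ⁻¹ • y) (κ • x) v⟫_ℝ := by
  have hd : ∀ (γ : Γ) (x : V d), DifferentiableAt ℝ (fun y : V d => γ • y) x := fun γ x =>
    ((hs γ).differentiable (by simp)) x
  have h1 : (fderiv ℝ (fun y : V d => κ⁻¹ • y) (κ • x)).comp (fderiv ℝ (fun y : V d => κ • y) x) = ContinuousLinearMap.id ℝ (V d) := by
    have h := fderiv_comp x (hd κ⁻¹ (κ • x)) (hd κ x)
    have e : ((fun y : V d => κ⁻¹ • y) ∘ fun y : V d => κ • y) = id := by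
      funext y
      simp
    rw [e, fderiv_id] at h
    exact h.symm
  have h2 : (fderiv ℝ (fun y : V d => κ • y) x).comp (fderiv ℝ (fun y : V d => κ⁻¹ • y) (κ • x)) = ContinuousLinearMap.id ℝ (V d) := by
    have h := fderiv_comp (κ • x) (hd κ (κ⁻¹ • κ • x)) (hd κ⁻¹ (κ • x))
    have e : ((fun y : V d => κ • y) ∘ fun y : V d => κ⁻¹ • y) = id := by
      funext y
      simp
    rw [e, fderiv_id, inv_smul_smul] at h
    exact h.symm
  have h3 : (ContinuousLinearMap.adjoint (fderiv ℝ (fun y : V d => κ • y) x)).inverse =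
      ContinuousLinearMap.adjoint (fderiv ℝ (fun y : V d => κ⁻¹ • y) (κ • x)) := by
    refine ContinuousLinearMap.inverse_eq ?_ ?_
    · rw [← ContinuousLinearMap.adjoint_comp, h1]
      exact ContinuousLinearMap.adjoint_id
    · rw [← ContinuousLinearMap.adjoint_comp, h2]
      exact ContinuousLinearMap.adjoint_id
  rw [h3, ContinuousLinearMap.adjoint_inner_left]

theorem APKC_fd {d : ℕ} {T : V d → V d} (hT : ContDiff ℝ ∞ T) (y0 c : V d) (E : V d →L[ℝ] V d) :
    fderiv ℝ (fun v => T (y0 + v) - c - E v) = fun v => fderiv ℝ T (y0 + v) - E := by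
  funext v
  have h1 : HasFDerivAt T (fderiv ℝ T (y0 + v)) (y0 + v) := (hT.differentiable (by simp)).differentiableAt.hasFDerivAt
  have h2 : HasFDerivAt (fun v => T (y0 + v)) (fderiv ℝ T (y0 + v)) v := by
    have := h1.comp v ((hasFDerivAt_id v).const_add y0)
    simpa [Function.comp_def] using this
  exact ((h2.sub_const c).sub E.hasFDerivAt).fderiv

theorem APKC_hi {d : ℕ} {T : V d → V d} (hT : ContDiff ℝ ∞ T) (y0 c : V d) (E : V d →L[ℝ] V d) (j : ℕ) (hj : 1 ≤ j) (v : V d) :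
    ‖iteratedFDeriv ℝ (j + 1) (fun v => T (y0 + v) - c - E v) v‖ = ‖iteratedFDeriv ℝ (j + 1) T (y0 + v)‖ := by
  rw [← norm_iteratedFDeriv_fderiv, APKC_fd hT, ← norm_iteratedFDeriv_fderiv (f := T)]
  have h1 : ContDiff ℝ ∞ (fderiv ℝ T) := hT.fderiv_right (by simp)
  have h3 : ContDiff ℝ ∞ (fun v => fderiv ℝ T (y0 + v)) := h1.comp (contDiff_const.add contDiff_id)
  have h2 : iteratedFDeriv ℝ j ((fun v => fderiv ℝ T (y0 + v)) - fun _ => E) v =
      iteratedFDeriv ℝ j (fun v => fderiv ℝ T (y0 + v)) v - iteratedFDeriv ℝ j (fun _ : V d => E) v :=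
    iteratedFDeriv_sub_apply (h3.contDiffAt.of_le (by exact_mod_cast le_top)) (contDiff_const.contDiffAt)
  have h4 : ((fun v => fderiv ℝ T (y0 + v)) - fun _ => E) = fun v => fderiv ℝ T (y0 + v) - E := rfl
  rw [h4] at h2
  rw [h2, iteratedFDeriv_const_of_ne (by omega), iteratedFDeriv_comp_add_left]
  simp

theorem APKC_shift {d : ℕ} {T : V d → V d} (hT : ContDiff ℝ ∞ T) (y0 c : V d) (j : ℕ) (hj : 1 ≤ j) (v : V d) :
    ‖iteratedFDeriv ℝ j (fun v => T (y0 + v) - c) v‖ = ‖iteratedFDeriv ℝ j T (y0 + v)‖ := by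
  have h3 : ContDiff ℝ ∞ (fun v => T (y0 + v)) := hT.comp (contDiff_const.add contDiff_id)
  have h2 : iteratedFDeriv ℝ j ((fun v => T (y0 + v)) - fun _ => c) v =
      iteratedFDeriv ℝ j (fun v => T (y0 + v)) v - iteratedFDeriv ℝ j (fun _ : V d => c) v :=
    iteratedFDeriv_sub_apply (h3.contDiffAt.of_le (by exact_mod_cast le_top)) (contDiff_const.contDiffAt)
  have h4 : ((fun v => T (y0 + v)) - fun _ => c) = fun v => T (y0 + v) - c := rfl
  rw [h4] at h2
  rw [h2, iteratedFDeriv_const_of_ne (by omega), iteratedFDeriv_comp_add_left]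
  simp

/-- the derivatives of the new profile at one point -/
theorem APKC_key {d : ℕ} {T : V d → V d} (hT : ContDiff ℝ ∞ T) {A : V d → ℂ} (hA : ContDiff ℝ ∞ A) (y0 c v : V d) (E : V d →L[ℝ] V d)
    (L : V d →L[ℝ] ℝ) {C a l b N m : ℝ} (n : ℕ) (hC : 1 ≤ C) (ha : C ≤ a) (hN : 1 ≤ N) (hm : 0 ≤ m) (hl : 0 ≤ l) (hL : ‖L‖ ≤ l)
    (hb : ‖fderiv ℝ T (y0 + v) - E‖ ≤ b) (h1 : l * b ≤ a * N) (h2 : l * C ≤ a * N ^ 2)
    (hTn : ∀ j ≤ n, ‖iteratedFDeriv ℝ j T (y0 + v)‖ ≤ C) (hAn : ∀ j ≤ n, ‖iteratedFDeriv ℝ j A (T (y0 + v) - c)‖ ≤ m * N ^ j) :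
    ‖iteratedFDeriv ℝ n (fun v => Complex.exp (((L (T (y0 + v) - c - E v) : ℝ) : ℂ) * Complex.I) * A (T (y0 + v) - c)) v‖ ≤
      (n + 1).factorial * a ^ n * m * N ^ n := by
  have ha1 : 1 ≤ a := hC.trans ha
  have h3 : ContDiff ℝ ∞ (fun v => T (y0 + v) - c) := (hT.comp (contDiff_const.add contDiff_id)).sub contDiff_const
  have h4 : ContDiff ℝ ∞ (fun v => T (y0 + v) - c - E v) := h3.sub E.contDiff
  have h5 : ContDiff ℝ ∞ (L ∘ fun v => T (y0 + v) - c - E v) := L.contDiff.comp h4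
  have h6 : ContDiff ℝ ∞ (A ∘ fun v => T (y0 + v) - c) := hA.comp h3
  have h7 : ContDiff ℝ ∞ ((fun x : ℝ => Complex.exp ((x : ℂ) * Complex.I)) ∘ (L ∘ fun v => T (y0 + v) - c - E v)) := APKC_expsm.comp h5
  have hjle : ∀ j : ℕ, (j : WithTop ℕ∞) ≤ ((⊤ : ℕ∞) : WithTop ℕ∞) := fun j => by exact_mod_cast le_top
  -- the phase
  have hph : ∀ i ≤ n, ‖iteratedFDeriv ℝ i ((fun x : ℝ => Complex.exp ((x : ℂ) * Complex.I)) ∘ (L ∘ fun v => T (y0 + v) - c - E v)) v‖ ≤
      i.factorial * (a * N) ^ i := by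
    intro i hi
    have h8 := norm_iteratedFDeriv_comp_le (𝕜 := ℝ) (n := i) (N := ∞) APKC_expsm h5 (hjle i) v (C := 1) (D := a * N)
      (fun j _ => (APKC_exp j _).le) (fun j hj1 hji => by
        refine (ContinuousLinearMap.norm_iteratedFDeriv_comp_left L (N := ∞) h4.contDiffAt (hjle j)).trans ?_
        obtain ⟨j, rfl⟩ := Nat.exists_eq_add_of_le' hj1
        rcases Nat.eq_zero_or_pos j with rfl | hj
        · rw [zero_add, norm_iteratedFDeriv_one, APKC_fd hT, pow_one]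
          refine le_trans ?_ h1
          exact mul_le_mul hL hb (norm_nonneg _) hl
        · rw [APKC_hi hT y0 c E j hj v]
          have h9 : ‖L‖ * ‖iteratedFDeriv ℝ (j + 1) T (y0 + v)‖ ≤ l * C := mul_le_mul hL (hTn _ (by omega)) (norm_nonneg _) hl
          refine h9.trans (h2.trans ?_)
          have haN : 1 ≤ a * N := by nlinarith
          have h10 : a * N ^ 2 ≤ (a * N) ^ 2 := by
            rw [mul_pow]
            refine mul_le_mul_of_nonneg_right ?_ (by positivity)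
            nlinarith
          exact h10.trans (pow_le_pow_right₀ haN (by omega)))
    rw [mul_one] at h8
    exact h8
  -- the amplitude
  have ham : ∀ i ≤ n, ‖iteratedFDeriv ℝ i (A ∘ fun v => T (y0 + v) - c) v‖ ≤ i.factorial * (m * N ^ i) * a ^ i := by
    intro i hi
    refine norm_iteratedFDeriv_comp_le (𝕜 := ℝ) (n := i) (N := ∞) hA h3 (hjle i) v (C := m * N ^ i) (D := a) ?_ ?_
    · intro j hj
      refine (hAn j (hj.trans hi)).trans ?_
      exact mul_le_mul_of_nonneg_left (pow_le_pow_right₀ hN hj) hm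
    · intro j hj1 hji
      rw [APKC_shift hT y0 c j hj1 v]
      refine (hTn j (hji.trans hi)).trans (ha.trans ?_)
      calc a = a ^ 1 := (pow_one a).symm
        _ ≤ a ^ j := pow_le_pow_right₀ ha1 hj1
  have h11 := norm_iteratedFDeriv_mul_le (𝕜 := ℝ) (N := ∞) h7 h6 v (n := n) (hjle n)
  refine h11.trans ?_
  have h12 : ∀ i ∈ Finset.range (n + 1), (n.choose i : ℝ) *
      ‖iteratedFDeriv ℝ i ((fun x : ℝ => Complex.exp ((x : ℂ) * Complex.I)) ∘ (L ∘ fun v => T (y0 + v) - c - E v)) v‖ *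
      ‖iteratedFDeriv ℝ (n - i) (A ∘ fun v => T (y0 + v) - c) v‖ ≤ n.factorial * a ^ n * m * N ^ n := by
    intro i hi
    have hin : i ≤ n := Nat.lt_succ_iff.mp (Finset.mem_range.mp hi)
    have e1 : (n.factorial : ℝ) = n.choose i * i.factorial * (n - i).factorial := by
      exact_mod_cast (Nat.choose_mul_factorial_mul_factorial hin).symm
    have e2 : a ^ n = a ^ i * a ^ (n - i) := by rw [← pow_add, Nat.add_sub_cancel' hin]
    have e3 : N ^ n = N ^ i * N ^ (n - i) := by rw [← pow_add, Nat.add_sub_cancel' hin]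
    calc (n.choose i : ℝ) * ‖iteratedFDeriv ℝ i ((fun x : ℝ => Complex.exp ((x : ℂ) * Complex.I)) ∘ (L ∘ fun v => T (y0 + v) - c - E v)) v‖ *
          ‖iteratedFDeriv ℝ (n - i) (A ∘ fun v => T (y0 + v) - c) v‖ ≤
        (n.choose i : ℝ) * (i.factorial * (a * N) ^ i) * ((n - i).factorial * (m * N ^ (n - i)) * a ^ (n - i)) := by
          refine mul_le_mul (mul_le_mul_of_nonneg_left (hph i hin) (by positivity)) (ham (n - i) (Nat.sub_le n i)) (norm_nonneg _) (by positivity)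
      _ = n.factorial * a ^ n * m * N ^ n := by
          rw [e1, e2, e3, mul_pow]
          ring
  refine (Finset.sum_le_sum h12).trans ?_
  rw [Finset.sum_const, Finset.card_range, nsmul_eq_mul, Nat.factorial_succ]
  push_cast
  exact le_of_eq (by ring)

theorem APKC_sm {d : ℕ} {T : V d → V d} (hT : ContDiff ℝ ∞ T) {A : V d → ℂ} (hA : ContDiff ℝ ∞ A) (y0 c : V d) (E : V d →L[ℝ] V d)
    (L : V d →L[ℝ] ℝ) : ContDiff ℝ ∞ (fun v => Complex.exp (((L (T (y0 + v) - c - E v) : ℝ) : ℂ) * Complex.I) * A (T (y0 + v) - c)) := by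
  have h3 : ContDiff ℝ ∞ (fun v => T (y0 + v) - c) := (hT.comp (contDiff_const.add contDiff_id)).sub contDiff_const
  have h4 : ContDiff ℝ ∞ (fun v => T (y0 + v) - c - E v) := h3.sub E.contDiff
  have h5 : ContDiff ℝ ∞ (L ∘ fun v => T (y0 + v) - c - E v) := L.contDiff.comp h4
  have h6 : ContDiff ℝ ∞ (A ∘ fun v => T (y0 + v) - c) := hA.comp h3
  exact (APKC_expsm.comp h5).mul h6

theorem APKC_proof (hASGF : ASGF_stmt) : APKC_stmt := by
  intro d Γ _ _ K r Kd η hfd hη hη8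
  obtain ⟨-, hinv, C, hC, hSG⟩ := hASGF d Γ K hfd r (max Kd 2)
  have hC0 : 0 < C := by linarith
  have haC : C ≤ C + |r| * C ^ 2 := by
    have := mul_nonneg (abs_nonneg r) (sq_nonneg C)
    linarith
  have har : |r| * C ^ 2 ≤ C + |r| * C ^ 2 := by linarith
  generalize hadef : C + |r| * C ^ 2 = a at haC har
  have ha1 : 1 ≤ a := hC.trans haC
  have hF : (0 : ℝ) ≤ (Kd + 1).factorial * a ^ Kd := by positivity
  have hbig : 0 < ((Kd + 1).factorial * a ^ Kd + C : ℝ) := by linarith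
  refine ⟨max 1 (((Kd + 1).factorial * a ^ Kd + C) ^ (1 / η)), le_max_left _ _, ?_⟩
  intro R m κ q f hR hm hκ hq1 hq2 hq3 hf
  obtain ⟨A, hA, hAs, hAd, hAf⟩ := hf
  have hR1 : 1 ≤ R := (le_max_left _ _).trans hR
  have hR0 : 0 < R := by linarith
  have hRη : (Kd + 1).factorial * a ^ Kd + C ≤ R ^ η := by
    have e : ((((Kd + 1).factorial * a ^ Kd + C : ℝ)) ^ (1 / η)) ^ η = (Kd + 1).factorial * a ^ Kd + C := by
      rw [← Real.rpow_mul hbig.le, one_div, inv_mul_cancel₀ hη.ne', Real.rpow_one]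
    rw [← e]
    exact Real.rpow_le_rpow (Real.rpow_nonneg hbig.le _) ((le_max_right _ _).trans hR) hη.le
  have hR1η : 1 ≤ R ^ η := Real.one_le_rpow hR1 hη.le
  have hr0 : 0 ≤ r := by
    have := norm_nonneg q.1
    linarith
  rw [abs_of_nonneg hr0] at har
  have hN : 1 ≤ R ^ (1 / 2 + η) := Real.one_le_rpow hR1 (by positivity)
  have hs0 : 0 < R ^ (-(1 / 2) + η) := Real.rpow_pos_of_pos hR0 _
  have hs1 : R ^ (-(1 / 2) + η) ≤ 1 := Real.rpow_le_one_of_one_le_of_nonpos hR1 (by linarith)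
  have hs2 : R ^ (-(1 / 2) + 2 * η) ≤ 1 := Real.rpow_le_one_of_one_le_of_nonpos hR1 (by linarith)
  have hCs : C * R ^ (-(1 / 2) + η) ≤ R ^ (-(1 / 2) + 2 * η) := by
    have e : R ^ (-(1 / 2) + 2 * η) = R ^ η * R ^ (-(1 / 2) + η) := by
      rw [← Real.rpow_add hR0]
      congr 1
      ring
    rw [e]
    exact mul_le_mul_of_nonneg_right (by linarith) hs0.le
  have hRs : R * R ^ (-(1 / 2) + η) = R ^ (1 / 2 + η) := by
    have e : R * R ^ (-(1 / 2) + η) = R ^ (1 : ℝ) * R ^ (-(1 / 2) + η) := by rw [Real.rpow_one]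
    rw [e, ← Real.rpow_add hR0]
    congr 1
    ring
  have hRN : R ≤ (R ^ (1 / 2 + η)) ^ 2 := by
    have e : (R ^ (1 / 2 + η)) ^ 2 = R ^ (1 + 2 * η) := by
      rw [← Real.rpow_natCast, ← Real.rpow_mul hR0.le]
      congr 1
      push_cast
      ring
    rw [e]
    calc R = R ^ (1 : ℝ) := (Real.rpow_one R).symm
      _ ≤ R ^ (1 + 2 * η) := Real.rpow_le_rpow_of_exponent_le hR1 (by linarith)
  have hNN : R ^ (1 / 2 + η) ≤ R ^ (1 / 2 + 2 * η) := Real.rpow_le_rpow_of_exponent_le hR1 (by linarith)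
  have hT : ContDiff ℝ ∞ fun y : V d => κ⁻¹ • y := hfd.smooth κ⁻¹
  -- geometry
  have hgeo : ∀ v : V d, ‖κ⁻¹ • (κ • q.1 + v) - q.1‖ ≤ R ^ (-(1 / 2) + η) → ‖v‖ ≤ C * R ^ (-(1 / 2) + η) := by
    intro v hv
    have hz : ‖κ⁻¹ • (κ • q.1 + v)‖ ≤ r := by
      have h1 : κ⁻¹ • (κ • q.1 + v) = (κ⁻¹ • (κ • q.1 + v) - q.1) + q.1 := by abel
      rw [h1]
      refine (norm_add_le _ _).trans ?_
      linarith
    have h2 := (hSG κ hκ _ hz).2.2.1 q.1 (by linarith)
    rw [smul_inv_smul, add_sub_cancel_left] at h2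
    exact h2.trans (mul_le_mul_of_nonneg_left hv hC0.le)
  have hLn : ‖R • (innerSL ℝ q.2 : V d →L[ℝ] ℝ)‖ ≤ R * r := by
    rw [norm_smul, innerSL_apply_norm, Real.norm_eq_abs, abs_of_pos hR0]
    exact mul_le_mul_of_nonneg_left hq3 hR0.le
  refine ⟨fun v => Complex.exp ((((R • (innerSL ℝ q.2 : V d →L[ℝ] ℝ)) (κ⁻¹ • (κ • q.1 + v) - q.1 - fderiv ℝ (fun y : V d => κ⁻¹ • y) (κ • q.1) v) : ℝ) : ℂ) * Complex.I) *
    A (κ⁻¹ • (κ • q.1 + v) - q.1), APKC_sm hT hA (κ • q.1) q.1 _ _, ?_, ?_, ?_⟩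
  · intro v hv
    have h1 : A (κ⁻¹ • (κ • q.1 + v) - q.1) ≠ 0 := fun h => hv (by simp only [h, mul_zero])
    exact (hgeo v (hAs _ h1)).trans hCs
  · intro n hn v
    by_cases hv : ‖κ⁻¹ • (κ • q.1 + v) - q.1‖ ≤ R ^ (-(1 / 2) + η)
    · have hv1 := hgeo v hv
      have hv2 : ‖v‖ ≤ 1 := hv1.trans (hCs.trans hs2)
      have hy : ‖κ • q.1 + v‖ ≤ r := by
        refine (norm_add_le _ _).trans ?_
        linarith
      have hy0 : ‖κ • q.1‖ ≤ r := by linarith
      have hκ' := hinv κ hκ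
      have hb : ‖fderiv ℝ (fun y : V d => κ⁻¹ • y) (κ • q.1 + v) - fderiv ℝ (fun y : V d => κ⁻¹ • y) (κ • q.1)‖ ≤ C * (C * R ^ (-(1 / 2) + η)) := by
        have h1 : ContDiff ℝ ∞ (fderiv ℝ (fun y : V d => κ⁻¹ • y)) := hT.fderiv_right (by simp)
        have h2 := Convex.norm_image_sub_le_of_norm_fderiv_le (𝕜 := ℝ) (f := fderiv ℝ (fun y : V d => κ⁻¹ • y)) (C := C) (s := Metric.closedBall (0 : V d) r)
          (x := κ • q.1) (y := κ • q.1 + v) (fun x _ => (h1.differentiable (by simp)) x) (fun x hx => by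
            rw [← norm_iteratedFDeriv_one, norm_iteratedFDeriv_fderiv]
            exact (hSG κ⁻¹ hκ' x (by simpa using hx)).1 2 (le_max_right _ _)) (convex_closedBall _ _) (by simpa using hy0) (by simpa using hy)
        refine h2.trans ?_
        rw [add_sub_cancel_left]
        exact mul_le_mul_of_nonneg_left hv1 hC0.le
      have hkey := APKC_key hT hA (κ • q.1) q.1 v (fderiv ℝ (fun y : V d => κ⁻¹ • y) (κ • q.1)) (R • (innerSL ℝ q.2 : V d →L[ℝ] ℝ)) (C := C) (a := a)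
        (l := R * r) (b := C * (C * R ^ (-(1 / 2) + η))) (N := R ^ (1 / 2 + η)) (m := m) n hC haC hN hm (by positivity) hLn hb
        (by
          have e : R * r * (C * (C * R ^ (-(1 / 2) + η))) = r * C ^ 2 * (R * R ^ (-(1 / 2) + η)) := by ring
          rw [e, hRs]
          exact mul_le_mul_of_nonneg_right har (by linarith))
        (by
          have e : R * r * C = r * C * R := by ring
          rw [e]
          have h3 : r * C ≤ a := by
            refine le_trans ?_ har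
            have : r * C ≤ r * C ^ 2 := mul_le_mul_of_nonneg_left (by nlinarith) hr0
            exact this
          exact mul_le_mul h3 hRN hR0.le (by linarith))
        (fun j hj => (hSG κ⁻¹ hκ' _ hy).1 j ((hj.trans hn).trans (le_max_left _ _)))
        (fun j hj => hAd j (hj.trans hn) _)
      refine hkey.trans ?_
      have h4 : ((n + 1).factorial : ℝ) * a ^ n ≤ R ^ η := by
        have h5 : ((n + 1).factorial : ℝ) ≤ (Kd + 1).factorial := by exact_mod_cast Nat.factorial_le (by omega)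
        have h6 : a ^ n ≤ a ^ Kd := pow_le_pow_right₀ ha1 hn
        have h7 : ((n + 1).factorial : ℝ) * a ^ n ≤ (Kd + 1).factorial * a ^ Kd := mul_le_mul h5 h6 (by positivity) (by positivity)
        linarith
      have h8 : (R ^ (1 / 2 + η)) ^ n ≤ (R ^ (1 / 2 + 2 * η)) ^ n := pow_le_pow_left₀ (by linarith) hNN n
      calc ((n + 1).factorial : ℝ) * a ^ n * m * (R ^ (1 / 2 + η)) ^ n = m * (((n + 1).factorial : ℝ) * a ^ n) * (R ^ (1 / 2 + η)) ^ n := by ring
        _ ≤ m * R ^ η * (R ^ (1 / 2 + 2 * η)) ^ n := by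
          refine mul_le_mul (mul_le_mul_of_nonneg_left h4 hm) h8 (by positivity) (by positivity)
    · have hev : (fun v => Complex.exp ((((R • (innerSL ℝ q.2 : V d →L[ℝ] ℝ)) (κ⁻¹ • (κ • q.1 + v) - q.1 - fderiv ℝ (fun y : V d => κ⁻¹ • y) (κ • q.1) v) : ℝ) : ℂ) * Complex.I) *
          A (κ⁻¹ • (κ • q.1 + v) - q.1)) =ᶠ[𝓝 v] fun _ => (0 : ℂ) := by
        have hc : Continuous fun v : V d => ‖κ⁻¹ • (κ • q.1 + v) - q.1‖ := by
          have h1 : Continuous fun v : V d => κ⁻¹ • (κ • q.1 + v) := hT.continuous.comp (continuous_const.add continuous_id)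
          exact (h1.sub continuous_const).norm
        filter_upwards [hc.continuousAt.eventually (lt_mem_nhds (not_le.mp hv))] with w hw
        have h2 : A (κ⁻¹ • (κ • q.1 + w) - q.1) = 0 := by
          by_contra hne
          exact absurd (hAs _ hne) (not_le.mpr hw)
        rw [h2, mul_zero]
      have h3 := (hev.iteratedFDeriv ℝ n).eq_of_nhds
      rw [h3]
      have h4 : iteratedFDeriv ℝ n (fun _ : V d => (0 : ℂ)) v = 0 := by
        have := iteratedFDeriv_zero_fun (𝕜 := ℝ) (E := V d) (F := ℂ) (n := n)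
        exact congrFun this v
      rw [h4, norm_zero]
      positivity
  · intro w
    have hin := APKC_inner hfd.smooth κ q.1 q.2 (w - κ • q.1)
    have e1 : (lft κ q).1 = κ • q.1 := rfl
    have e2 : (lft κ q).2 = (ContinuousLinearMap.adjoint (fderiv ℝ (fun y : V d => κ • y) q.1)).inverse q.2 := rfl
    simp only [e1, e2, hin, hAf (κ⁻¹ • w), add_sub_cancel]
    rw [← mul_assoc, ← Complex.exp_add]
    congr 2
    rw [← add_mul]
    congr 1
    rw [← Complex.ofReal_add]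
    congr 1
    rw [ContinuousLinearMap.smul_apply, innerSL_apply_apply, smul_eq_mul, inner_sub_right q.2 (κ⁻¹ • w - q.1)]
    ring

end

end Pool.Agent.VD
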